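import Pool.Agent.X321.MQ.Cnt2

set_option autoImplicit false
set_option linter.unusedSimpArgs false
set_option linter.unusedSectionVars false

/-! The number of quaternions of a structure without birigid elements. -/

namespace Pool.Agent.X321.MQ

open Pool.Agent.H315R3.ETC Pool.Agent.Y920.ETC Finset

variable {S : QData} [Fintype S.G]

open scoped Classical in
/-- the values -/
noncomputable def vals (S : QData) [Fintype S.G] : Finset S.Q :=
  (univ : Finset (S.G × S.G)).image fun p => S.q p.1 p.2

open scoped Classical in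
/-- the values without loops -/
noncomputable def TV (S : QData) [Fintype S.G] : Finset S.Q :=
  (vals S).filter fun t => ∀ a, S.q a a ≠ t

open scoped Classical in
/-- the half rigid elements -/
noncomputable def HrF (S : QData) [Fintype S.G] : Finset S.G := univ.filter fun a => Hr S a

open scoped Classical in
/-- the other elements -/
noncomputable def NrF (S : QData) [Fintype S.G] : Finset S.G := univ.filter fun a => ¬ Hr S a

lemma mem_HrF {a : S.G} : a ∈ HrF S ↔ Hr S a := by simp [HrF]

lemma mem_NrF {a : S.G} : a ∈ NrF S ↔ ¬ Hr S a := by simp [NrF]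

lemma mem_TV {t : S.Q} : t ∈ TV S ↔ (∃ u v, S.q u v = t) ∧ ∀ a, S.q a a ≠ t := by
  simp [TV, vals]

/-- the total weight -/
lemma total (κ : ℕ) : ∑ u, ∑ v, wt S κ u v =
    #(HrF S) * (4 * #(HrF S) + #(NrF S)) + #(NrF S) * (#(HrF S) + κ * #(NrF S)) := by
  classical
  have key : ∀ (p q : ℕ), ∑ v : S.G, (if Hr S v then p else q) =
      p * #(HrF S) + q * #(NrF S) := by
    intro p q
    rw [Finset.sum_ite, Finset.sum_const, Finset.sum_const, smul_eq_mul, smul_eq_mul, mul_comm,
      mul_comm _ q]
    have e1 : (univ.filter fun v => Hr S v) = HrF S := by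
      ext v; rw [mem_HrF]; simp
    have e2 : (univ.filter fun v => ¬ Hr S v) = NrF S := by
      ext v; rw [mem_NrF]; simp
    rw [e1, e2]
  have h1 : ∀ u : S.G, ∑ v, wt S κ u v =
      if Hr S u then 4 * #(HrF S) + #(NrF S) else #(HrF S) + κ * #(NrF S) := by
    intro u
    by_cases hu : Hr S u
    · rw [if_pos hu, ← one_mul #(NrF S), ← key 4 1]
      exact Finset.sum_congr rfl fun v _ => by simp [wt, hu]
    · rw [if_neg hu]
      have := key 1 κ
      rw [one_mul] at this
      rw [← this]
      exact Finset.sum_congr rfl fun v _ => by simp [wt, hu]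
  rw [Finset.sum_congr rfl fun u _ => h1 u, key]
  ring

variable (h : IsQuat S)

include h in
lemma card_TV_le (κ : ℕ) (hκ : κ = 2 ∨ (κ = 1 ∧ S.neg = 1)) :
    24 * #(TV S) ≤
      #(HrF S) * (4 * #(HrF S) + #(NrF S)) + #(NrF S) * (#(HrF S) + κ * #(NrF S)) := by
  classical
  rw [← total κ]
  have h1 : 24 * #(TV S) ≤ ∑ t ∈ TV S, ∑ u, fw S κ t u := by
    rw [mul_comm, ← smul_eq_mul, ← Finset.sum_const]
    refine Finset.sum_le_sum fun t ht => ?_
    obtain ⟨h2, h3⟩ := mem_TV.1 ht
    exact weight h h3 κ hκ h2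
  refine h1.trans ?_
  rw [Finset.sum_comm]
  refine Finset.sum_le_sum fun u _ => ?_
  have h4 : ∑ t ∈ TV S, fw S κ t u = ∑ v ∈ univ.filter (fun v => S.q u v ∈ TV S),
      wt S κ u v := by
    rw [← Finset.sum_fiberwise_eq_sum_filter]
    refine Finset.sum_congr rfl fun t _ => ?_
    unfold fw Nb
    refine Finset.sum_congr ?_ fun _ _ => rfl
    ext v
    simp
  rw [h4]
  exact Finset.sum_le_sum_of_subset (Finset.filter_subset _ _)

include h in
/-- without birigid elements -/
lemma notMem_HrF (hno : ∀ a : S.G, ¬ Bi S a) (hq : 2 < Nat.card S.G) {a : S.G}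
    (ha : a ∈ HrF S) : S.neg * a ∉ HrF S := by
  classical
  rw [mem_HrF] at ha ⊢
  have h1 : ¬ Hr S 1 := by
    intro hr
    have hsub : (Set.univ : Set S.G) ⊆ (({1, S.neg} : Finset S.G) : Set S.G) := by
      intro b _
      rcases hr b (q_one' h b) with h2 | h2
      · simp [h2]
      · simp [h2]
    have h3 := Set.ncard_le_ncard hsub (Set.toFinite _)
    rw [Set.ncard_univ, Set.ncard_coe_finset] at h3
    have h4 : #({1, S.neg} : Finset S.G) ≤ 2 := Finset.card_le_two
    omega
  intro hb
  by_cases ha1 : a = 1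
  · exact h1 (ha1 ▸ ha)
  by_cases ha2 : a = S.neg
  · rw [ha2, h.exp2] at hb
    exact h1 hb
  · exact hno a ⟨ha1, ha2, ha, hb⟩

include h in
lemma card_HrF_le (hno : ∀ a : S.G, ¬ Bi S a) (hq : 2 < Nat.card S.G) :
    #(HrF S) ≤ #(NrF S) := by
  classical
  refine Finset.card_le_card_of_injOn (fun a => S.neg * a) ?_ ?_
  · intro a ha
    rw [Finset.mem_coe, mem_NrF, ← mem_HrF]
    exact notMem_HrF h hno hq ha
  · intro a _ b _ e
    exact mul_left_cancel e

include h in
lemma HrF_eq_empty (hneg : S.neg = 1) (hno : ∀ a : S.G, ¬ Bi S a) (hq : 2 < Nat.card S.G) :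
    #(HrF S) = 0 := by
  rw [Finset.card_eq_zero, Finset.eq_empty_iff_forall_notMem]
  intro a ha
  have := notMem_HrF h hno hq ha
  rw [hneg, one_mul] at this
  exact this ha

lemma card_split : #(HrF S) + #(NrF S) = Nat.card S.G := by
  classical
  rw [HrF, NrF, Nat.card_eq_fintype_card, ← Finset.card_univ]
  exact Finset.card_filter_add_card_filter_not _

include h in
/-- structures with at least one value without loops have at least four elements, and at least
five if `-1` is not trivial -/
lemma four_le (hT : (TV S).Nonempty) : 4 ≤ Nat.card S.G ∧ (S.neg ≠ 1 → 5 ≤ Nat.card S.G) := by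
  classical
  obtain ⟨t, ht⟩ := hT
  obtain ⟨⟨u, v, e⟩, hl⟩ := mem_TV.1 ht
  have ht0 : t ≠ S.zero := by
    rintro rfl
    exact hl 1 (q_one h 1)
  have hu1 := ne_one h ht0 e
  have hv1 := ne_one h ht0 (comm h e)
  have hw1 := ne_one h ht0 (comm h (tri h e))
  have huv := ne_of_adj hl e
  have huw := ne_of_adj hl (tri h e)
  have hvw := ne_of_adj hl (tri' h e)
  have hu2 := ne_neg h hl e
  have hv2 := ne_neg h hl (comm h e)
  have hw2 := ne_neg h hl (comm h (tri h e))
  constructor
  · have h1 := card_four (Ne.symm hu1) (Ne.symm hv1) (Ne.symm hw1) huv huw hvw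
    rw [← h1, Nat.card_eq_fintype_card]
    exact Finset.card_le_univ _
  · intro hneg
    have h1 : #({S.neg, 1, u, v, S.neg * u * v} : Finset S.G) = 5 := by
      rw [Finset.card_insert_of_notMem,
        card_four (Ne.symm hu1) (Ne.symm hv1) (Ne.symm hw1) huv huw hvw]
      simp only [Finset.mem_insert, Finset.mem_singleton, not_or]
      exact ⟨hneg, Ne.symm hu2, Ne.symm hv2, Ne.symm hw2⟩
    rw [← h1, Nat.card_eq_fintype_card]
    exact Finset.card_le_univ _

include h in
/-- many values give birigid elements -/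
theorem exists_bi_of_many (hT : Nat.card S.G ^ 2 < 12 * #(TV S) ∨
    (S.neg = 1 ∧ Nat.card S.G ^ 2 < 24 * #(TV S))) : ∃ a : S.G, Bi S a := by
  by_contra hno
  push Not at hno
  have hne : (TV S).Nonempty := by
    rw [← Finset.card_pos]
    omega
  have hq := (four_le h hne).1
  have hs := card_split (S := S)
  rcases hT with hT | ⟨hneg, hT⟩
  · have h1 := card_TV_le h 2 (Or.inl rfl)
    have h2 := card_HrF_le h hno (by omega)
    rw [← hs] at hT
    nlinarith
  · have h1 := card_TV_le h 1 (Or.inr ⟨rfl, hneg⟩)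
    have h2 := HrF_eq_empty h hneg hno (by omega)
    rw [← hs, h2] at hT
    rw [h2] at h1
    nlinarith

include h in
/-- the number of values -/
theorem card_vals_le : #(vals S) ≤ #(TV S) + Nat.card S.G ∧
    (S.neg = 1 → #(vals S) ≤ #(TV S) + 1) := by
  classical
  constructor
  · have h1 : vals S ⊆ TV S ∪ (univ : Finset S.G).image (fun a => S.q a a) := by
      intro t ht
      rw [Finset.mem_union]
      by_cases hc : t ∈ TV S
      · exact Or.inl hc
      · right
        rw [Finset.mem_image]
        by_contra hcon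
        push Not at hcon
        exact hc (Finset.mem_filter.2 ⟨ht, fun a => hcon a (Finset.mem_univ _)⟩)
    refine (Finset.card_le_card h1).trans ((Finset.card_union_le _ _).trans ?_)
    refine Nat.add_le_add_left ?_ _
    refine Finset.card_image_le.trans ?_
    rw [Finset.card_univ, Nat.card_eq_fintype_card]
  · intro hneg
    have h1 : vals S ⊆ insert S.zero (TV S) := by
      intro t ht
      rw [Finset.mem_insert]
      by_cases hc : t ∈ TV S
      · exact Or.inr hc
      · left
        by_contra hcon
        apply hc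
        refine Finset.mem_filter.2 ⟨ht, fun a e => hcon ?_⟩
        rw [← e]
        have := h.qs1 a
        rwa [hneg, one_mul] at this
    refine (Finset.card_le_card h1).trans ?_
    exact Finset.card_insert_le _ _

include h in
theorem exists_bi_of_vals (hT : Nat.card S.G ^ 2 + 12 * Nat.card S.G < 12 * #(vals S) ∨
    (S.neg = 1 ∧ Nat.card S.G ^ 2 + 24 < 24 * #(vals S))) :
    (∃ a : S.G, Bi S a) ∧ (TV S).Nonempty := by
  obtain ⟨h1, h2⟩ := card_vals_le h
  have h3 : Nat.card S.G ^ 2 < 12 * #(TV S) ∨
      (S.neg = 1 ∧ Nat.card S.G ^ 2 < 24 * #(TV S)) := by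
    rcases hT with hT | ⟨hneg, hT⟩
    · left; omega
    · right
      have := h2 hneg
      exact ⟨hneg, by omega⟩
  refine ⟨exists_bi_of_many h h3, ?_⟩
  rw [← Finset.card_pos]
  omega

include h in
/-- many half rigid elements give birigid elements -/
theorem exists_bi_of_hr (hq : 2 < Nat.card S.G) (hT : Nat.card S.G < 2 * #(HrF S)) :
    ∃ a : S.G, Bi S a := by
  by_contra hno
  push Not at hno
  have h1 := card_HrF_le h hno hq
  have h2 := card_split (S := S)
  omega

end Pool.Agent.X321.MQ
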