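import Pool.Agent.X321.MQ.Pcd
import Pool.Agent.X321.MQ.Sum
import Pool.Agent.Y920.ETC.FieldH
import Pool.Agent.Y920.ETC.GalH
import Pool.Agent.Y620.ET.Extv
import Pool.Agent.Y37.ET.Max2

set_option autoImplicit false
set_option linter.unusedSimpArgs false
set_option linter.unusedSectionVars false

/-! Valuations of fields with a birigid class. -/

namespace Pool.Agent.X321.MQ

open Pool.Agent.H315R3.ETC Pool.Agent.TH188.ET Pool.Agent.Y920.ETC Finset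

open scoped Quaternion

section

variable {F : Type} [Field F]

lemma sq_mem (x : Fˣ) : x ∈ sqG F ↔ ∃ y : Fˣ, x = y * y := by
  rw [mem_sqG]
  constructor
  · rintro ⟨y, rfl⟩; exact ⟨y, pow_two y⟩
  · rintro ⟨y, rfl⟩; exact ⟨y, (pow_two y).symm⟩

/-- the valuation ring of a rigid pair without exceptions -/
theorem val_of_pcd (h2 : (2 : F) ≠ 0) {H' : Subgroup Fˣ} (hR : RigidPair (sqG F) H')
    (hP : PCD (sqG F) H') (hc : ∃ c : Fˣ, c ∉ H') : ∃ O : ValuationSubring F, Sqr O ∧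
      ∃ c : Fˣ, ∀ f : Fˣ, ¬ (((c * f ^ 2 : Fˣ) : F) ∈ O ∧ (((c * f ^ 2)⁻¹ : Fˣ) : F) ∈ O) := by
  obtain ⟨O, hO⟩ := Pool.Agent.Y447.ET.t_WB F _ _ hR hP
  obtain ⟨O', hOO', h2O', hO'⟩ := Pool.Agent.Y67.ET.t_COARSE F h2 _ _ sq_mem hR.le O hO
  obtain ⟨c, hc⟩ := hc
  refine ⟨O', ⟨h2O', h2, ?_⟩, c, ?_⟩
  · intro x hx hx'
    obtain ⟨t, ht, hte⟩ := hO'.one x hx hx'
    obtain ⟨y, rfl⟩ := (sq_mem t).1 ht
    exact ⟨y, by rw [← hte, Units.val_mul]⟩
  · rintro f ⟨h3, h4⟩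
    apply hc
    have h5 := hO'.units _ h3 h4
    have h6 : c = (c * f ^ 2) * (f * f)⁻¹ := by
      rw [pow_two, mul_inv_cancel_right]
    rw [h6]
    exact H'.mul_mem h5 (H'.inv_mem (hR.le (hR.sq f)))

variable {S : QData} {φ : Fˣ →* S.G} (hs : Function.Surjective φ)
  (hk : ∀ a : Fˣ, φ a = 1 ↔ ∃ b : Fˣ, a = b ^ 2) (hn : φ (-1) = S.neg)
  (h0 : S.q 1 1 = S.zero)
  (hq : ∀ a b c d : Fˣ, S.q (φ a) (φ b) = S.q (φ c) (φ d) ↔
      Nonempty (ℍ[F,(a : F),0,(b : F)] ≃ₐ[F] ℍ[F,(c : F),0,(d : F)]))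
  (hS : IsQuat S)

include hs hk hn h0 hq hS in
/-- fields with a birigid class carry a valuation, if the other classes do not all lie in
`{1, -1}` -/
theorem exists_val' (h2 : (2 : F) ≠ 0) [Finite S.G] (B : Subgroup S.G)
    (hB : ∀ a : S.G, a ∈ B ↔ ¬ Bi S a) (hbi : ∃ a : S.G, Bi S a)
    (hβ : Nat.card S.G = 2 * Nat.card B → ∃ β ∈ B, β ≠ 1 ∧ β ≠ S.neg) :
    ∃ O : ValuationSubring F, Sqr O ∧
      ∃ c : Fˣ, ∀ f : Fˣ, ¬ (((c * f ^ 2 : Fˣ) : F) ∈ O ∧ (((c * f ^ 2)⁻¹ : Fˣ) : F) ∈ O) := by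
  by_cases hidx : 2 * Nat.card B < Nat.card S.G
  · obtain ⟨O, hO, -, hc⟩ := exists_val hs hk hn h0 hq h2 B hB hidx
    exact ⟨O, hO, hc⟩
  push Not at hidx
  obtain ⟨a, ha⟩ := hbi
  have haB : a ∉ B := fun h => (hB a).1 h ha
  -- the index is two
  have hBi : B.index = 2 := by
    have h1 := B.card_mul_index
    have h3 : 0 < Nat.card B := Nat.card_pos
    have h4 : B.index ≠ 1 := fun e => haB (by
      rw [Subgroup.index_eq_one] at e
      rw [e]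
      exact Subgroup.mem_top a)
    have h5 : B.index ≠ 0 := fun e => by
      rw [e, mul_zero] at h1
      have : 0 < Nat.card S.G := Nat.card_pos
      omega
    have h6 : B.index ≤ 2 := by
      by_contra hc
      push Not at hc
      have : Nat.card B * 3 ≤ Nat.card B * B.index := Nat.mul_le_mul_left _ hc
      omega
    omega
  have hcard : Nat.card S.G = 2 * Nat.card B := by
    rw [← B.card_mul_index, hBi, mul_comm]
  obtain ⟨β0, hβ0, hβ1, hβ2⟩ := hβ hcard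
  -- an element of `B` such that the opposite element is not half rigid
  obtain ⟨β, hβB, hβ1, hβ2, hβr⟩ : ∃ β ∈ B, β ≠ 1 ∧ β ≠ S.neg ∧ ¬ Hr S (S.neg * β) := by
    have hnB : S.neg ∈ B := (hB _).2 fun hb => hb.2.1 rfl
    by_cases hr : Hr S (S.neg * β0)
    · refine ⟨S.neg * β0, B.mul_mem hnB hβ0, ?_, ?_, ?_⟩
      · intro e
        exact hβ2 (eq_of_mul hS _ _ e).symm
      · intro e
        apply hβ1
        rwa [mul_eq_left] at e
      · rw [neg_neg_mul hS]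
        intro hr'
        exact (hB β0).1 hβ0 ⟨hβ1, hβ2, hr', hr⟩
    · exact ⟨β0, hβ0, hβ1, hβ2, hr⟩
  unfold Hr at hβr
  push Not at hβr
  obtain ⟨e, he, he1, he2⟩ := hβr
  rw [neg_neg_mul hS] at he2
  obtain ⟨β', rfl⟩ := hs β
  obtain ⟨e', rfl⟩ := hs e
  have hneg : ∀ x : Fˣ, φ (-x) = S.neg * φ x := fun x => by rw [← hn, ← map_mul, neg_one_mul]
  rw [← hneg, q_zero h0 hq h2] at he
  obtain ⟨x, y, hxy⟩ := he
  have hT : ∀ x : Fˣ, x ∈ sqG F ↔ ∃ y : Fˣ, x = y ^ 2 := fun x => mem_sqG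
  have hR := rigidPair hk hn h0 hq h2 B hB
  obtain ⟨b, c, hg⟩ := exists_good (β := β') (e := e') hR hT hβB
    (fun h => hβ1 (by rw [hk, ← hT]; exact h))
    (fun h => hβ2 (by
      rw [hT, ← hk, hneg] at h
      exact (eq_of_mul hS _ _ h).symm))
    (fun h => he1 (by rw [hk, ← hT]; exact h))
    (fun h => he2 (by
      rw [hT, ← hk, map_mul, map_inv, mul_inv_eq_one] at h
      exact h))
    ⟨x, y, by rw [hxy, Units.val_neg]; ring⟩
  refine val_of_pcd h2 hR (pcd hR ?_ hg) ?_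
  · intro x y hx hy
    rw [Subgroup.mem_comap] at hx hy ⊢
    rw [map_mul]
    exact (Subgroup.mul_mem_iff_of_index_two hBi).2 ⟨fun h => absurd h hx, fun h => absurd h hy⟩
  · obtain ⟨a', rfl⟩ := hs a
    exact ⟨a', haB⟩

end

end Pool.Agent.X321.MQ
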