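import Pool.Agent.Y920.ETC.Count2

set_option autoImplicit false
set_option linter.unusedSimpArgs false
set_option linter.unusedSectionVars false

/-! Counting the pairs with a given value: every value without loops has weight at least `24`. -/

namespace Pool.Agent.X321.MQ

open Pool.Agent.H315R3.ETC Pool.Agent.Y920.ETC Finset

section

variable {S : QData} (h : IsQuat S)

include h

lemma sq2 (a b : S.G) : a * (a * b) = b := by rw [← mul_assoc, h.exp2, one_mul]

/-- comparison of two equations whose products agree -/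
lemma eq_of {a b c d : S.G} (e : a = b) (hk : a * b = c * d) : c = d := by
  apply eq_of_mul h
  rw [← hk, e, h.exp2]

variable {t : S.Q} (ht : t ≠ S.zero) (hl : ∀ a : S.G, S.q a a ≠ t)

lemma q_neg (a : S.G) : S.q a S.neg = S.q a a := by
  rw [h.qs3]
  exact h.qs1 a

omit h in
include hl in
lemma ne_of_adj {u v : S.G} (e : S.q u v = t) : u ≠ v := by
  rintro rfl
  exact hl u e

include ht in
lemma ne_one {u v : S.G} (e : S.q u v = t) : u ≠ 1 := by
  rintro rfl
  exact ht (e.symm.trans (q_one' h v))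

include hl in
lemma ne_neg {u v : S.G} (e : S.q u v = t) : u ≠ S.neg := by
  rintro rfl
  exact hl v (by rw [← e, h.qs2 S.neg v, q_neg h])

lemma comm {u v : S.G} (e : S.q u v = t) : S.q v u = t := by rw [h.qs2]; exact e

/-- the triangle through `u` and `v` -/
lemma tri {u v : S.G} (e : S.q u v = t) : S.q u (S.neg * u * v) = t := by
  rw [q_shift h _ (h.qs1 u)]
  exact e

lemma tri' {u v : S.G} (e : S.q u v = t) : S.q v (S.neg * u * v) = t := by
  have e1 : S.neg * u * v = S.neg * v * u := by rw [mul_right_comm]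
  rw [e1]
  exact tri h (comm h e)

lemma shift {u v d : S.G} (e : S.q u v = t) (hd : S.q u d = S.zero) : S.q u (d * v) = t := by
  rw [q_shift h _ hd]
  exact e

include hl in
/-- common orthogonal elements are not `-u` -/
lemma orth_ne {u v d : S.G} (e : S.q u v = t) (hd : S.q v d = S.zero) : d ≠ S.neg * u := by
  rintro rfl
  have h1 : S.q v S.neg = S.q v u := (h.qs3 _ _ _).2 hd
  rw [q_neg h, comm h e] at h1
  exact hl v h1

include hl in
/-- common orthogonal elements are not `u v` -/
lemma orth_ne' {u v d : S.G} (e : S.q u v = t) (hd : S.q u d = S.zero) : d ≠ u * v := by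
  rintro rfl
  have h1 : S.q u u = S.q u v := (h.qs3 _ _ _).2 hd
  rw [e] at h1
  exact hl u h1

end

section weight

variable {S : QData} [Fintype S.G]

open scoped Classical in
/-- the weight of a pair -/
noncomputable def wt (S : QData) (κ : ℕ) (u v : S.G) : ℕ :=
  if Hr S u then (if Hr S v then 4 else 1) else (if Hr S v then 1 else κ)

open scoped Classical in
/-- the neighbours of `u` -/
noncomputable def Nb (S : QData) [Fintype S.G] (t : S.Q) (u : S.G) : Finset S.G :=
  univ.filter fun v => S.q u v = t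

/-- the weight of `u` -/
noncomputable def fw (S : QData) [Fintype S.G] (κ : ℕ) (t : S.Q) (u : S.G) : ℕ :=
  ∑ v ∈ Nb S t u, wt S κ u v

variable {κ : ℕ} {t : S.Q}

lemma mem_Nb {u v : S.G} : v ∈ Nb S t u ↔ S.q u v = t := by simp [Nb]

omit [Fintype S.G] in
lemma one_le_wt (hκ : 1 ≤ κ) (u v : S.G) : 1 ≤ wt S κ u v := by
  unfold wt
  split_ifs <;> omega

lemma fw_ge (hκ : 1 ≤ κ) {u : S.G} {m : ℕ} (P : Finset S.G) (hP : P ⊆ Nb S t u)
    (hw : ∀ v ∈ P, 1 + m ≤ wt S κ u v) : #(Nb S t u) + m * #P ≤ fw S κ t u := by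
  classical
  have h1 : ∑ v ∈ Nb S t u, (1 + if v ∈ P then m else 0) = #(Nb S t u) + m * #P := by
    rw [Finset.sum_add_distrib, Finset.sum_const, smul_eq_mul, mul_one,
      ← Finset.sum_filter, Finset.sum_const, smul_eq_mul, mul_comm m]
    congr 2
    congr 1
    ext v
    rw [Finset.mem_filter]
    exact ⟨fun h => h.2, fun h => ⟨hP h, h⟩⟩
  rw [← h1]
  refine Finset.sum_le_sum fun v _ => ?_
  split_ifs with h2
  · exact hw v h2
  · exact one_le_wt hκ u v

lemma fw_ge_card (hκ : 1 ≤ κ) (u : S.G) : #(Nb S t u) ≤ fw S κ t u := by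
  have := fw_ge (m := 0) hκ (u := u) (t := t) ∅ (Finset.empty_subset _) (by simp)
  simpa using this

/-- lower bounds for sums -/
lemma list_sum_le (f : S.G → ℕ) {l : List S.G} (hl : l.Nodup) :
    (l.map f).sum ≤ ∑ u, f u := by
  classical
  rw [← List.sum_toFinset f hl]
  exact Finset.sum_le_sum_of_subset (Finset.subset_univ _)

lemma sum_bound (f : S.G → ℕ) (s P Q : Finset S.G) (hs : ∀ w ∈ s, 2 ≤ f w) (hP : P ⊆ s)
    (hQ : Q ⊆ s) (hd : Disjoint P Q) (h4 : ∀ w ∈ P, 4 ≤ f w) (h5 : ∀ w ∈ Q, 5 ≤ f w) :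
    2 * #s + 2 * #P + 3 * #Q ≤ ∑ u, f u := by
  classical
  have h1 : ∑ w ∈ s, (2 + (if w ∈ P then 2 else 0) + (if w ∈ Q then 3 else 0)) =
      2 * #s + 2 * #P + 3 * #Q := by
    rw [Finset.sum_add_distrib, Finset.sum_add_distrib, Finset.sum_const, smul_eq_mul,
      ← Finset.sum_filter, ← Finset.sum_filter, Finset.sum_const, Finset.sum_const, smul_eq_mul,
      smul_eq_mul]
    have e1 : s.filter (fun w => w ∈ P) = P := by
      ext v
      rw [Finset.mem_filter]
      exact ⟨fun h => h.2, fun h => ⟨hP h, h⟩⟩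
    have e2 : s.filter (fun w => w ∈ Q) = Q := by
      ext v
      rw [Finset.mem_filter]
      exact ⟨fun h => h.2, fun h => ⟨hQ h, h⟩⟩
    rw [e1, e2]
    ring
  rw [← h1]
  refine le_trans (Finset.sum_le_sum fun w hw => ?_)
    (Finset.sum_le_sum_of_subset (Finset.subset_univ s))
  have h2 := hs w hw
  split_ifs with h6 h7 h7
  · exact absurd h7 (Finset.disjoint_left.1 hd h6)
  · have := h4 w h6
    omega
  · have := h5 w h7
    omega
  · omega

variable (h : IsQuat S) (ht : t ≠ S.zero) (hl : ∀ a : S.G, S.q a a ≠ t)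

include h hl in
lemma two_le_Nb {u v : S.G} (e : S.q u v = t) : 2 ≤ #(Nb S t u) := by
  classical
  have h1 : v ≠ S.neg * u * v := by
    intro e1
    apply ne_neg h hl e
    have : S.neg * u = 1 := by rwa [eq_comm, mul_eq_right] at e1
    exact (eq_of_mul h _ _ this).symm
  rw [← Finset.card_pair h1]
  apply Finset.card_le_card
  intro w hw
  rw [Finset.mem_insert, Finset.mem_singleton] at hw
  rw [mem_Nb]
  rcases hw with rfl | rfl
  · exact e
  · exact tri h e

include h hl in
lemma four_nodup {u v d : S.G} (e : S.q u v = t) (hd1 : d ≠ 1) (hd2 : d ≠ S.neg * u) :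
    [v, S.neg * u * v, d * v, d * (S.neg * u * v)].Nodup := by
  have h1 : v ≠ S.neg * u * v := by
    intro e1
    apply ne_neg h hl e
    have : S.neg * u = 1 := by rwa [eq_comm, mul_eq_right] at e1
    exact (eq_of_mul h _ _ this).symm
  have h2 : v ≠ d * v := by
    intro e1
    apply hd1
    rwa [eq_comm, mul_eq_right] at e1
  have h3 : v ≠ d * (S.neg * u * v) := by
    intro e1
    apply hd2
    exact eq_of h e1 (by simp only [mul_assoc, mul_comm, mul_left_comm, h.exp2, sq2 h, mul_one])
  have h4 : S.neg * u * v ≠ d * v := by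
    intro e1
    apply hd2
    exact eq_of h e1 (by simp only [mul_assoc, mul_comm, mul_left_comm, h.exp2, sq2 h, mul_one])
  have h5 : S.neg * u * v ≠ d * (S.neg * u * v) := by
    intro e1
    apply hd1
    rwa [eq_comm, mul_eq_right] at e1
  have h6 : d * v ≠ d * (S.neg * u * v) := fun e1 => h1 (mul_left_cancel e1)
  simp [h1, h2, h3, h4, h5, h6, -mul_right_inj, -mul_eq_right, -right_eq_mul]

include h hl in
lemma four_le_Nb {u v : S.G} (e : S.q u v = t) (hu : ¬ Hr S u) : 4 ≤ #(Nb S t u) := by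
  classical
  unfold Hr at hu
  push Not at hu
  obtain ⟨d, hd, hd1, hd2⟩ := hu
  have hn := four_nodup h hl e hd1 hd2
  have h1 : #([v, S.neg * u * v, d * v, d * (S.neg * u * v)].toFinset) = 4 := by
    rw [List.toFinset_card_of_nodup hn]
    rfl
  rw [← h1]
  apply Finset.card_le_card
  intro w hw
  simp only [List.toFinset_cons, List.toFinset_nil, Finset.mem_insert, Finset.notMem_empty,
    or_false] at hw
  rw [mem_Nb]
  rcases hw with rfl | rfl | rfl | rfl
  · exact e
  · exact tri h e
  · exact shift h e hd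
  · exact shift h (tri h e) hd

include h hl in
lemma fw_two (hκ : 1 ≤ κ) {u v : S.G} (e : S.q u v = t) : 2 ≤ fw S κ t u :=
  (two_le_Nb h hl e).trans (fw_ge_card hκ u)

include h hl in
lemma fw_four (hκ : 1 ≤ κ) {u v : S.G} (e : S.q u v = t) (hu : ¬ Hr S u) :
    4 ≤ fw S κ t u :=
  (four_le_Nb h hl e hu).trans (fw_ge_card hκ u)

include h hl in
/-- half rigid elements with a half rigid neighbour -/
lemma fw_five (hκ : 1 ≤ κ) {u v : S.G} (e : S.q u v = t) (hu : Hr S u) (hv : Hr S v) :
    5 ≤ fw S κ t u := by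
  have h1 := fw_ge (m := 3) hκ (u := u) (t := t) {v} (by
    rw [Finset.singleton_subset_iff, mem_Nb]; exact e) (by
    intro w hw
    rw [Finset.mem_singleton] at hw
    subst hw
    simp [wt, hu, hv])
  rw [Finset.card_singleton] at h1
  have h2 := two_le_Nb h hl e
  omega

include h hl in
lemma fw_eight (hκ : 1 ≤ κ) {u v v' : S.G} (e : S.q u v = t) (e' : S.q u v' = t) (hne : v ≠ v')
    (hu : Hr S u) (hv : Hr S v) (hv' : Hr S v') : 8 ≤ fw S κ t u := by
  classical
  have h1 := fw_ge (m := 3) hκ (u := u) (t := t) {v, v'} (by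
    intro w hw
    rw [Finset.mem_insert, Finset.mem_singleton] at hw
    rw [mem_Nb]
    rcases hw with rfl | rfl
    · exact e
    · exact e') (by
    intro w hw
    rw [Finset.mem_insert, Finset.mem_singleton] at hw
    rcases hw with rfl | rfl
    · simp [wt, hu, hv]
    · simp [wt, hu, hv'])
  rw [Finset.card_pair hne] at h1
  have h2 := two_le_Nb h hl e
  omega

include h hl in
/-- elements which are not half rigid with such a neighbour, `κ = 2` -/
lemma fw_five' {u v : S.G} (e : S.q u v = t) (hu : ¬ Hr S u) (hv : ¬ Hr S v) :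
    5 ≤ fw S 2 t u := by
  have h1 := fw_ge (m := 1) (κ := 2) one_le_two (u := u) (t := t) {v} (by
    rw [Finset.singleton_subset_iff, mem_Nb]; exact e) (by
    intro w hw
    rw [Finset.mem_singleton] at hw
    subst hw
    simp [wt, hu, hv])
  rw [Finset.card_singleton] at h1
  have h2 := four_le_Nb h hl e hu
  omega

include h hl in
lemma fw_six {u v v' : S.G} (e : S.q u v = t) (e' : S.q u v' = t) (hne : v ≠ v')
    (hu : ¬ Hr S u) (hv : ¬ Hr S v) (hv' : ¬ Hr S v') : 6 ≤ fw S 2 t u := by
  classical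
  have h1 := fw_ge (m := 1) (κ := 2) one_le_two (u := u) (t := t) {v, v'} (by
    intro w hw
    rw [Finset.mem_insert, Finset.mem_singleton] at hw
    rw [mem_Nb]
    rcases hw with rfl | rfl
    · exact e
    · exact e') (by
    intro w hw
    rw [Finset.mem_insert, Finset.mem_singleton] at hw
    rcases hw with rfl | rfl
    · simp [wt, hu, hv]
    · simp [wt, hu, hv'])
  rw [Finset.card_pair hne] at h1
  have h2 := four_le_Nb h hl e hu
  omega

/-! ### the cases -/

include h hl in
/-- case A: all slots are half rigid -/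
lemma caseA (hκ : 1 ≤ κ) {x y : S.G} (e : S.q x y = t) (hA : ∀ u v, S.q u v = t → Hr S u) :
    24 ≤ ∑ u, fw S κ t u := by
  have h1 := tri h e
  have h2 := tri' h e
  have hxy := ne_of_adj hl e
  have hxz := ne_of_adj hl h1
  have hyz := ne_of_adj hl h2
  have hx := hA _ _ e
  have hy := hA _ _ (comm h e)
  have hz := hA _ _ (comm h h1)
  have hn : [x, y, S.neg * x * y].Nodup := by
    simp [hxy, hxz, hyz, -mul_right_inj, -mul_eq_right, -right_eq_mul]
  have h3 := list_sum_le (fw S κ t) hn
  have h4 := fw_eight h hl hκ e h1 hyz hx hy hz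
  have h5 := fw_eight h hl hκ (comm h e) h2 hxz hy hx hz
  have h6 := fw_eight h hl hκ (comm h h1) (comm h h2) hxy hz hx hy
  simp only [List.map_cons, List.map_nil, List.sum_cons, List.sum_nil] at h3
  omega

include h hl in
/-- case B: a slot which is not half rigid, but no two adjacent ones -/
lemma caseB (hκ : 1 ≤ κ) {x y : S.G} (e : S.q x y = t) (hx : ¬ Hr S x)
    (hB : ∀ u v, S.q u v = t → ¬ Hr S u → Hr S v) : 24 ≤ ∑ u, fw S κ t u := by
  have hx' := hx
  unfold Hr at hx'
  push Not at hx'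
  obtain ⟨d, hd, hd1, hd2⟩ := hx'
  have hn := four_nodup h hl e hd1 hd2
  have h1 := tri h e
  have h2 := shift h e hd
  have h3 := shift h h1 hd
  have hn' : [x, y, S.neg * x * y, d * y, d * (S.neg * x * y)].Nodup := by
    rw [List.nodup_cons]
    refine ⟨?_, hn⟩
    simp only [List.mem_cons, List.not_mem_nil, or_false, not_or]
    exact ⟨ne_of_adj hl e, ne_of_adj hl h1, ne_of_adj hl h2, ne_of_adj hl h3⟩
  have key : ∀ v, S.q x v = t → 5 ≤ fw S κ t v := by
    intro v hv
    exact fw_five h hl hκ (tri' h hv) (hB _ _ hv hx) (hB _ _ (tri h hv) hx)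
  have h4 := list_sum_le (fw S κ t) hn'
  have h5 := fw_four h hl hκ e hx
  have h6 := key _ e
  have h7 := key _ h1
  have h8 := key _ h2
  have h9 := key _ h3
  simp only [List.map_cons, List.map_nil, List.sum_cons, List.sum_nil] at h4
  omega

/-- the common data of case C1 -/
structure Six (S : QData) (t : S.Q) (x y d : S.G) : Prop where
  e : S.q x y = t
  d1 : d ≠ 1
  hx : S.q x d = S.zero
  hy : S.q y d = S.zero

variable {x y d : S.G}

include h hl in
lemma six_nodup (hs : Six S t x y d) :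
    [x, y, S.neg * x * y, d * x, d * y, d * (S.neg * x * y)].Nodup := by
  obtain ⟨e, d1, hx, hy⟩ := hs
  have hxy := ne_of_adj hl e
  have hxz := ne_of_adj hl (tri h e)
  have hyz := ne_of_adj hl (tri' h e)
  have n1 : d ≠ S.neg * x := orth_ne h hl e hy
  have n2 : d ≠ S.neg * y := orth_ne h hl (comm h e) hx
  have n3 : d ≠ x * y := orth_ne' h hl e hx
  have a1 : x ≠ d * x := fun e1 => d1 (by rwa [eq_comm, mul_eq_right] at e1)
  have a2 : x ≠ d * y := fun e1 => n3 (eq_of h e1 (by
    simp only [mul_assoc, mul_comm, mul_left_comm, h.exp2, sq2 h, mul_one]))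
  have a3 : x ≠ d * (S.neg * x * y) := fun e1 => n2 (eq_of h e1 (by
    simp only [mul_assoc, mul_comm, mul_left_comm, h.exp2, sq2 h, mul_one]))
  have b1 : y ≠ d * x := fun e1 => n3 (eq_of h e1 (by
    simp only [mul_assoc, mul_comm, mul_left_comm, h.exp2, sq2 h, mul_one]))
  have b2 : y ≠ d * y := fun e1 => d1 (by rwa [eq_comm, mul_eq_right] at e1)
  have b3 : y ≠ d * (S.neg * x * y) := fun e1 => n1 (eq_of h e1 (by
    simp only [mul_assoc, mul_comm, mul_left_comm, h.exp2, sq2 h, mul_one]))
  have c1 : S.neg * x * y ≠ d * x := fun e1 => n2 (eq_of h e1 (by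
    simp only [mul_assoc, mul_comm, mul_left_comm, h.exp2, sq2 h, mul_one]))
  have c2 : S.neg * x * y ≠ d * y := fun e1 => n1 (eq_of h e1 (by
    simp only [mul_assoc, mul_comm, mul_left_comm, h.exp2, sq2 h, mul_one]))
  have c3 : S.neg * x * y ≠ d * (S.neg * x * y) := fun e1 =>
    d1 (by rwa [eq_comm, mul_eq_right] at e1)
  have e1 : d * x ≠ d * y := fun e1 => hxy (mul_left_cancel e1)
  have e2 : d * x ≠ d * (S.neg * x * y) := fun e1 => hxz (mul_left_cancel e1)
  have e3 : d * y ≠ d * (S.neg * x * y) := fun e1 => hyz (mul_left_cancel e1)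
  simp only [List.nodup_cons, List.mem_cons, List.not_mem_nil, or_false, not_or, List.nodup_nil,
    not_false_eq_true, and_true]
  exact ⟨⟨hxy, hxz, a1, a2, a3⟩, ⟨hyz, b1, b2, b3⟩, ⟨c1, c2, c3⟩, ⟨e1, e2⟩, e3⟩

include h hl in
lemma six_nr (hs : Six S t x y d) : ¬ Hr S x := fun hr => by
  rcases hr d hs.hx with h1 | h1
  · exact hs.d1 h1
  · exact orth_ne h hl hs.e hs.hy h1

omit [Fintype S.G] in
include h in
lemma six_symm (hs : Six S t x y d) : Six S t y x d :=
  ⟨comm h hs.e, hs.d1, hs.hy, hs.hx⟩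

omit [Fintype S.G] in
include h in
lemma six_d (hs : Six S t x y d) : S.q d (d * (S.neg * x * y)) = S.zero := by
  have h1 : S.q d (S.neg * d) = S.zero := h.qs1 d
  have h2 : S.q d (x * y) = S.zero :=
    p_mul h (by rw [h.qs2]; exact hs.hx) (by rw [h.qs2]; exact hs.hy)
  have h3 := p_mul h h1 h2
  have e : S.neg * d * (x * y) = d * (S.neg * x * y) := by
    simp only [mul_assoc, mul_comm, mul_left_comm]
  rwa [e] at h3

include h hl in
lemma six_nrz (hs : Six S t x y d) : ¬ Hr S (d * (S.neg * x * y)) := fun hr => by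
  rcases hr d (by rw [h.qs2]; exact six_d h hs) with h1 | h1
  · exact hs.d1 h1
  · apply ne_of_adj hl hs.e
    exact eq_of h h1 (by
      simp only [mul_assoc, mul_comm, mul_left_comm, h.exp2, sq2 h, mul_one])

include h hl in
/-- case C1, `κ = 2` -/
lemma caseC1 (hs : Six S t x y d) : 24 ≤ ∑ u, fw S 2 t u := by
  have hn := six_nodup h hl hs
  have hnr := six_nr h hl hs
  have hnr' := six_nr h hl (six_symm h hs)
  have hnz := six_nrz h hl hs
  have e1 : S.q x (d * (S.neg * x * y)) = t := shift h (tri h hs.e) hs.hx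
  have e2 : S.q y (d * (S.neg * x * y)) = t := shift h (tri' h hs.e) hs.hy
  have e3 : S.q y (d * x) = t := shift h (comm h hs.e) hs.hy
  have e4 : S.q x (d * y) = t := shift h hs.e hs.hx
  have hl2 := list_sum_le (fw S 2 t) hn
  simp only [List.nodup_cons, List.mem_cons, List.not_mem_nil, or_false, not_or, List.nodup_nil,
    not_false_eq_true, and_true] at hn
  have f1 := fw_six h hl hs.e e1 hn.2.1.2.2.2 hnr hnr' hnz
  have f2 := fw_six h hl (comm h hs.e) e2 hn.1.2.2.2.2 hnr' hnr hnz
  have f3 := fw_six h hl (comm h e1) (comm h e2) hn.1.1 hnz hnr hnr'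
  have f4 := fw_two h hl one_le_two (κ := 2) (comm h (tri h hs.e))
  have f5 := fw_two h hl one_le_two (κ := 2) (comm h e3)
  have f6 := fw_two h hl one_le_two (κ := 2) (comm h e4)
  simp only [List.map_cons, List.map_nil, List.sum_cons, List.sum_nil] at hl2
  omega

include h hl in
/-- case C1, `-1 = 1` -/
lemma caseC1' (hκ : 1 ≤ κ) (hneg : S.neg = 1) (hs : Six S t x y d) : 24 ≤ ∑ u, fw S κ t u := by
  have hn := six_nodup h hl hs
  have hnr := six_nr h hl hs
  have hnr' := six_nr h hl (six_symm h hs)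
  have hnz := six_nrz h hl hs
  have hdd : S.q d d = S.zero := by
    have := h.qs1 d
    rwa [hneg, one_mul] at this
  have e1 : S.q x (d * (S.neg * x * y)) = t := shift h (tri h hs.e) hs.hx
  have e3 : S.q y (d * x) = t := shift h (comm h hs.e) hs.hy
  have e4 : S.q x (d * y) = t := shift h hs.e hs.hx
  have e5 : S.q x (S.neg * x * y) = t := tri h hs.e
  have hdz : S.q (S.neg * x * y) d = S.zero := by
    rw [h.qs2]
    have h3 := p_mul h hdd (six_d h hs)
    rwa [sq2 h] at h3
  have hdx : S.q (d * x) d = S.zero := by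
    rw [h.qs2]
    exact p_mul h hdd (by rw [h.qs2]; exact hs.hx)
  have hdy : S.q (d * y) d = S.zero := by
    rw [h.qs2]
    exact p_mul h hdd (by rw [h.qs2]; exact hs.hy)
  have s1 : Six S t (S.neg * x * y) x d := ⟨comm h e5, hs.d1, hdz, hs.hx⟩
  have s2 : Six S t (d * x) y d := ⟨comm h e3, hs.d1, hdx, hs.hy⟩
  have s3 : Six S t (d * y) x d := ⟨comm h e4, hs.d1, hdy, hs.hx⟩
  have hl2 := list_sum_le (fw S κ t) hn
  have f1 := fw_four h hl hκ hs.e hnr
  have f2 := fw_four h hl hκ (comm h hs.e) hnr'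
  have f3 := fw_four h hl hκ (comm h e1) hnz
  have f4 := fw_four h hl hκ s1.e (six_nr h hl s1)
  have f5 := fw_four h hl hκ s2.e (six_nr h hl s2)
  have f6 := fw_four h hl hκ s3.e (six_nr h hl s3)
  simp only [List.map_cons, List.map_nil, List.sum_cons, List.sum_nil] at hl2
  omega

end weight

end Pool.Agent.X321.MQ
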