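import Pool.Agent.X321.MQ.Cnt

set_option autoImplicit false
set_option linter.unusedSimpArgs false
set_option linter.unusedSectionVars false

/-! Counting the pairs with a given value: independent slots. -/

namespace Pool.Agent.X321.MQ

open Pool.Agent.H315R3.ETC Pool.Agent.Y920.ETC Finset

variable {S : QData} {t : S.Q}

/-- the data of case C2 -/
structure Sev (S : QData) (t : S.Q) (x y e f : S.G) : Prop where
  adj : S.q x y = t
  e0 : S.q x e = S.zero
  e1 : e ≠ 1
  e2 : e ≠ S.neg * x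
  f0 : S.q y f = S.zero
  f1 : f ≠ 1
  f2 : f ≠ S.neg * y
  cap : ∀ d, S.q x d = S.zero → S.q y d = S.zero → d = 1

variable (h : IsQuat S) (hl : ∀ a : S.G, S.q a a ≠ t) {x y e f : S.G}

include h in
lemma sev_n1 (hs : Sev S t x y e f) : S.q x (f * x) ≠ t := by
  intro h1
  apply hs.f2
  have h2 : S.q x (f * x * y) = S.zero := (h.qs3 _ _ _).1 (h1.trans hs.adj.symm)
  have h3 := p_mul h (h.qs1 x) h2
  have e1 : S.neg * x * (f * x * y) = f * (S.neg * y) :=
    (eq_of_mul h _ _ (by
      simp only [mul_assoc, mul_comm, mul_left_comm, h.exp2, sq2 h, mul_one]))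
  rw [e1] at h3
  have h4 := p_mul h hs.f0 (h.qs1 y)
  exact eq_of_mul h _ _ (hs.cap _ h3 h4)

include h in
lemma sev_n2 (hs : Sev S t x y e f) : S.q x (f * (S.neg * x * y)) ≠ t := by
  intro h1
  apply hs.f1
  have e1 : f * (S.neg * x * y) = S.neg * x * (f * y) := by
    simp only [mul_assoc, mul_comm, mul_left_comm]
  rw [e1, q_shift h _ (h.qs1 x)] at h1
  have h2 : S.q x (f * y * y) = S.zero := (h.qs3 _ _ _).1 (h1.trans hs.adj.symm)
  rw [mul_cancel h] at h2
  exact hs.cap _ h2 hs.f0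

include h in
lemma sev_adj (hs : Sev S t x y e f) :
    S.q x (e * y) = t ∧ S.q x (e * (S.neg * x * y)) = t ∧ S.q y (f * x) = t ∧
      S.q y (f * (S.neg * x * y)) = t ∧ S.q (e * y) (e * (S.neg * x * y)) = t ∧
      S.q (f * x) (f * (S.neg * x * y)) = t := by
  have a1 : S.q x (e * y) = t := shift h hs.adj hs.e0
  have a2 : S.q y (f * x) = t := shift h (comm h hs.adj) hs.f0
  refine ⟨a1, shift h (tri h hs.adj) hs.e0, a2, shift h (tri' h hs.adj) hs.f0, ?_, ?_⟩
  · have := tri' h a1
    have e1 : S.neg * x * (e * y) = e * (S.neg * x * y) := by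
      simp only [mul_assoc, mul_comm, mul_left_comm]
    rwa [e1] at this
  · have := tri' h a2
    have e1 : S.neg * y * (f * x) = f * (S.neg * x * y) := by
      simp only [mul_assoc, mul_comm, mul_left_comm]
    rwa [e1] at this

include h hl in
lemma sev_nodup (hs : Sev S t x y e f) :
    [x, y, S.neg * x * y, e * y, e * (S.neg * x * y), f * x, f * (S.neg * x * y)].Nodup := by
  have hn1 := sev_n1 h hs
  have hn2 := sev_n2 h hs
  obtain ⟨a1, a2, a3, a4, -, -⟩ := sev_adj h hs
  obtain ⟨adj, e0, e1, e2, f0, f1, f2, cap⟩ := hs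
  have hxy := ne_of_adj hl adj
  have hxz := ne_of_adj hl (tri h adj)
  have hyz := ne_of_adj hl (tri' h adj)
  have x1 : x ≠ e * y := ne_of_adj hl a1
  have x2 : x ≠ e * (S.neg * x * y) := ne_of_adj hl a2
  have x3 : x ≠ f * x := fun e1 => f1 (by rwa [eq_comm, mul_eq_right] at e1)
  have x4 : x ≠ f * (S.neg * x * y) := fun e1 => f2 (eq_of h e1 (by
    simp only [mul_assoc, mul_comm, mul_left_comm, h.exp2, sq2 h, mul_one]))
  have y1 : y ≠ e * y := fun e3 => e1 (by rwa [eq_comm, mul_eq_right] at e3)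
  have y2 : y ≠ e * (S.neg * x * y) := fun e3 => e2 (eq_of h e3 (by
    simp only [mul_assoc, mul_comm, mul_left_comm, h.exp2, sq2 h, mul_one]))
  have y3 : y ≠ f * x := ne_of_adj hl a3
  have y4 : y ≠ f * (S.neg * x * y) := ne_of_adj hl a4
  have z1 : S.neg * x * y ≠ e * y := fun e3 => e2 (eq_of h e3 (by
    simp only [mul_assoc, mul_comm, mul_left_comm, h.exp2, sq2 h, mul_one]))
  have z2 : S.neg * x * y ≠ e * (S.neg * x * y) := fun e3 => e1 (by
    rwa [eq_comm, mul_eq_right] at e3)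
  have z3 : S.neg * x * y ≠ f * x := fun e3 => f2 (eq_of h e3 (by
    simp only [mul_assoc, mul_comm, mul_left_comm, h.exp2, sq2 h, mul_one]))
  have z4 : S.neg * x * y ≠ f * (S.neg * x * y) := fun e3 => f1 (by
    rwa [eq_comm, mul_eq_right] at e3)
  have w1 : e * y ≠ e * (S.neg * x * y) := fun e3 => hyz (mul_left_cancel e3)
  have w2 : e * y ≠ f * x := fun e3 => hn1 (by rw [← e3]; exact a1)
  have w3 : e * y ≠ f * (S.neg * x * y) := fun e3 => hn2 (by rw [← e3]; exact a1)
  have v1 : e * (S.neg * x * y) ≠ f * x := fun e3 => hn1 (by rw [← e3]; exact a2)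
  have v2 : e * (S.neg * x * y) ≠ f * (S.neg * x * y) := fun e3 => hn2 (by rw [← e3]; exact a2)
  have u1 : f * x ≠ f * (S.neg * x * y) := fun e3 => hxz (mul_left_cancel e3)
  simp only [List.nodup_cons, List.mem_cons, List.not_mem_nil, or_false, not_or, List.nodup_nil,
    not_false_eq_true, and_true]
  exact ⟨⟨hxy, hxz, x1, x2, x3, x4⟩, ⟨hyz, y1, y2, y3, y4⟩, ⟨z1, z2, z3, z4⟩, ⟨w1, w2, w3⟩,
    ⟨v1, v2⟩, u1⟩

variable [Fintype S.G]

open scoped Classical in
/-- the slots of `t` -/
noncomputable def slots (S : QData) [Fintype S.G] (t : S.Q) : Finset S.G :=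
  univ.filter fun w => ∃ v, S.q w v = t

lemma mem_slots {u v : S.G} (a : S.q u v = t) : u ∈ slots S t := by
  simp only [slots, Finset.mem_filter, Finset.mem_univ, true_and]
  exact ⟨v, a⟩

include h hl in
lemma seven_le (hs : Sev S t x y e f) : 7 ≤ #(slots S t) := by
  classical
  have hn := sev_nodup h hl hs
  obtain ⟨a1, a2, a3, a4, -, -⟩ := sev_adj h hs
  have h1 := List.toFinset_card_of_nodup hn
  have h2 : [x, y, S.neg * x * y, e * y, e * (S.neg * x * y), f * x,
      f * (S.neg * x * y)].toFinset ⊆ slots S t := by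
    intro w hw
    simp only [List.toFinset_cons, List.toFinset_nil, Finset.mem_insert, Finset.notMem_empty,
      or_false] at hw
    rcases hw with rfl | rfl | rfl | rfl | rfl | rfl | rfl
    · exact mem_slots hs.adj
    · exact mem_slots (comm h hs.adj)
    · exact mem_slots (comm h (tri h hs.adj))
    · exact mem_slots (comm h a1)
    · exact mem_slots (comm h a2)
    · exact mem_slots (comm h a3)
    · exact mem_slots (comm h a4)
  have h3 := Finset.card_le_card h2
  rw [h1] at h3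
  exact h3

include h hl in
lemma two_le_slots {κ : ℕ} (hκ : 1 ≤ κ) : ∀ w ∈ slots S t, 2 ≤ fw S κ t w := by
  intro w hw
  simp only [slots, Finset.mem_filter, Finset.mem_univ, true_and] at hw
  obtain ⟨v, hv⟩ := hw
  exact fw_two h hl hκ hv

omit [Fintype S.G] in
lemma card_four [DecidableEq S.G] {a b c d : S.G} (h1 : a ≠ b) (h2 : a ≠ c) (h3 : a ≠ d)
    (h4 : b ≠ c) (h5 : b ≠ d) (h6 : c ≠ d) : #({a, b, c, d} : Finset S.G) = 4 := by
  rw [Finset.card_insert_of_notMem, Finset.card_insert_of_notMem, Finset.card_pair h6]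
  · simp [h4, h5]
  · simp [h1, h2, h3]

include h hl in
/-- case C2, `κ = 2` -/
lemma caseC2 (hx : ¬ Hr S x) (hy : ¬ Hr S y) (hs : Sev S t x y e f) :
    24 ≤ ∑ u, fw S 2 t u := by
  classical
  have hn := sev_nodup h hl hs
  have h7 := seven_le h hl hs
  have hf := two_le_slots h hl (κ := 2) one_le_two
  obtain ⟨a1, a2, a3, a4, a5, a6⟩ := sev_adj h hs
  -- four slots of weight at least five
  obtain ⟨u, v, h1, h2, h3, h4, h5, hu, hv, hus, hvs⟩ : ∃ u v : S.G, x ≠ u ∧ x ≠ v ∧ y ≠ u ∧
      y ≠ v ∧ u ≠ v ∧ 5 ≤ fw S 2 t u ∧ 5 ≤ fw S 2 t v ∧ u ∈ slots S t ∧ v ∈ slots S t := by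
    by_cases hex : ∃ u v, S.q u v = t ∧ Hr S u ∧ Hr S v
    · obtain ⟨u, v, huv, hu, hv⟩ := hex
      exact ⟨u, v, fun e1 => hx (e1 ▸ hu), fun e1 => hx (e1 ▸ hv), fun e1 => hy (e1 ▸ hu),
        fun e1 => hy (e1 ▸ hv), ne_of_adj hl huv, fw_five h hl one_le_two huv hu hv,
        fw_five h hl one_le_two (comm h huv) hv hu, mem_slots huv, mem_slots (comm h huv)⟩
    · push Not at hex
      simp only [List.nodup_cons, List.mem_cons, List.not_mem_nil, or_false, not_or,
        List.nodup_nil, not_false_eq_true, and_true] at hn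
      obtain ⟨⟨-, -, x1, x2, x3, x4⟩, ⟨-, y1, y2, y3, y4⟩, -, ⟨-, w2, w3⟩, ⟨v1, v2⟩, -⟩ := hn
      have p1 : ∃ u, ¬ Hr S u ∧ S.q x u = t ∧ x ≠ u ∧ y ≠ u ∧ u ≠ f * x ∧
          u ≠ f * (S.neg * x * y) := by
        by_cases hc : Hr S (e * y)
        · exact ⟨_, hex _ _ a5 hc, a2, x2, y2, v1, v2⟩
        · exact ⟨_, hc, a1, x1, y1, w2, w3⟩
      obtain ⟨u, hu, hxu, g1, g2, g3, g4⟩ := p1
      have p2 : ∃ v, ¬ Hr S v ∧ S.q y v = t ∧ x ≠ v ∧ y ≠ v ∧ u ≠ v := by
        by_cases hc : Hr S (f * x)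
        · exact ⟨_, hex _ _ a6 hc, a4, x4, y4, g4⟩
        · exact ⟨_, hc, a3, x3, y3, g3⟩
      obtain ⟨v, hv, hyv, g5, g6, g7⟩ := p2
      exact ⟨u, v, g1, g5, g2, g6, g7, fw_five' h hl (comm h hxu) hu hx,
        fw_five' h hl (comm h hyv) hv hy, mem_slots (comm h hxu), mem_slots (comm h hyv)⟩
  have hxy := ne_of_adj hl hs.adj
  have key := sum_bound (fw S 2 t) (slots S t) ∅ {x, y, u, v} hf (Finset.empty_subset _) (by
    intro w hw
    simp only [Finset.mem_insert, Finset.mem_singleton] at hw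
    rcases hw with rfl | rfl | rfl | rfl
    · exact mem_slots hs.adj
    · exact mem_slots (comm h hs.adj)
    · exact hus
    · exact hvs) (Finset.disjoint_empty_left _) (by simp) (by
    intro w hw
    simp only [Finset.mem_insert, Finset.mem_singleton] at hw
    rcases hw with rfl | rfl | rfl | rfl
    · exact fw_five' h hl hs.adj hx hy
    · exact fw_five' h hl (comm h hs.adj) hy hx
    · exact hu
    · exact hv)
  rw [card_four hxy h1 h2 h3 h4 h5] at key
  omega

include h hl in
/-- case C2, `κ = 1` -/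
lemma caseC2' {κ : ℕ} (hκ : 1 ≤ κ) (hx : ¬ Hr S x) (hy : ¬ Hr S y) (hs : Sev S t x y e f) :
    24 ≤ ∑ u, fw S κ t u := by
  classical
  have hn := sev_nodup h hl hs
  have h7 := seven_le h hl hs
  have hf := two_le_slots h hl (κ := κ) hκ
  obtain ⟨a1, a2, a3, a4, a5, a6⟩ := sev_adj h hs
  have hxy := ne_of_adj hl hs.adj
  by_cases hex : ∃ u v, S.q u v = t ∧ Hr S u ∧ Hr S v
  · obtain ⟨u, v, huv, hu, hv⟩ := hex
    have key := sum_bound (fw S κ t) (slots S t) {x, y} {u, v} hf (by
      intro w hw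
      simp only [Finset.mem_insert, Finset.mem_singleton] at hw
      rcases hw with rfl | rfl
      · exact mem_slots hs.adj
      · exact mem_slots (comm h hs.adj)) (by
      intro w hw
      simp only [Finset.mem_insert, Finset.mem_singleton] at hw
      rcases hw with rfl | rfl
      · exact mem_slots huv
      · exact mem_slots (comm h huv)) (by
      rw [Finset.disjoint_left]
      intro w hw hw'
      simp only [Finset.mem_insert, Finset.mem_singleton] at hw hw'
      rcases hw with rfl | rfl <;> rcases hw' with rfl | rfl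
      · exact hx hu
      · exact hx hv
      · exact hy hu
      · exact hy hv) (by
      intro w hw
      simp only [Finset.mem_insert, Finset.mem_singleton] at hw
      rcases hw with rfl | rfl
      · exact fw_four h hl hκ hs.adj hx
      · exact fw_four h hl hκ (comm h hs.adj) hy) (by
      intro w hw
      simp only [Finset.mem_insert, Finset.mem_singleton] at hw
      rcases hw with rfl | rfl
      · exact fw_five h hl hκ huv hu hv
      · exact fw_five h hl hκ (comm h huv) hv hu)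
    rw [Finset.card_pair hxy, Finset.card_pair (ne_of_adj hl huv)] at key
    omega
  · push Not at hex
    simp only [List.nodup_cons, List.mem_cons, List.not_mem_nil, or_false, not_or,
      List.nodup_nil, not_false_eq_true, and_true] at hn
    obtain ⟨⟨-, -, x1, x2, x3, x4⟩, ⟨-, y1, y2, y3, y4⟩, -, ⟨w1, w2, w3⟩, ⟨v1, v2⟩, u1⟩ := hn
    -- two half rigid elements at distance two from each other have no common neighbour
    have hr : ∀ {p p' r r' : S.G}, S.q x p = t → S.q y r = t → p' = S.neg * x * p →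
        r' = S.neg * y * r → x ≠ r' → p' ≠ y → p' ≠ r' → Hr S p → Hr S r → False := by
      intro p p' r r' hp hr hp' hr' n1 n2 n3 h1 h2
      obtain ⟨w, g1, g2⟩ := common h (show S.q p x = S.q r y by
        rw [comm h hp, comm h hr])
      have hpx := comm h hp
      have hry := comm h hr
      rw [hpx] at g1 g2
      have g3 : S.q p (w * x) = S.zero := (h.qs3 _ _ _).1 (g1.trans hpx.symm)
      have g4 : S.q r (w * y) = S.zero := (h.qs3 _ _ _).1 (g2.trans hry.symm)
      have g5 : w = x ∨ w = p' := by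
        rcases h1 _ g3 with g | g
        · exact Or.inl (eq_of_mul h _ _ g)
        · right
          rw [hp']
          exact eq_of h g (by
            simp only [mul_assoc, mul_comm, mul_left_comm, h.exp2, sq2 h, mul_one])
      have g6 : w = y ∨ w = r' := by
        rcases h2 _ g4 with g | g
        · exact Or.inl (eq_of_mul h _ _ g)
        · right
          rw [hr']
          exact eq_of h g (by
            simp only [mul_assoc, mul_comm, mul_left_comm, h.exp2, sq2 h, mul_one])
      rcases g5 with rfl | rfl <;> rcases g6 with g | g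
      · exact hxy g
      · exact n1 g
      · exact n2 g
      · exact n3 g
    have ez1 : e * (S.neg * x * y) = S.neg * x * (e * y) := by
      simp only [mul_assoc, mul_comm, mul_left_comm]
    have ez2 : e * y = S.neg * x * (e * (S.neg * x * y)) :=
      eq_of_mul h _ _ (by simp only [mul_assoc, mul_comm, mul_left_comm, h.exp2, sq2 h, mul_one])
    have fz1 : f * (S.neg * x * y) = S.neg * y * (f * x) := by
      simp only [mul_assoc, mul_comm, mul_left_comm]
    have fz2 : f * x = S.neg * y * (f * (S.neg * x * y)) :=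
      eq_of_mul h _ _ (by simp only [mul_assoc, mul_comm, mul_left_comm, h.exp2, sq2 h, mul_one])
    -- three more elements which are not half rigid
    have main : ∃ p r s : S.G, ¬ Hr S p ∧ ¬ Hr S r ∧ ¬ Hr S s ∧ x ≠ p ∧ x ≠ r ∧ x ≠ s ∧ y ≠ p ∧
        y ≠ r ∧ y ≠ s ∧ p ≠ r ∧ p ≠ s ∧ r ≠ s ∧ (∃ v, S.q p v = t) ∧ (∃ v, S.q r v = t) ∧
        ∃ v, S.q s v = t := by
      by_cases c1 : Hr S (e * y) <;> by_cases c2 : Hr S (e * (S.neg * x * y))
      · exact absurd c2 (hex _ _ a5 c1)
      · have c3 : ¬ Hr S (f * x) := fun c3 =>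
          hr a1 a3 ez1 fz1 x4 (Ne.symm y2) v2 c1 c3
        have c4 : ¬ Hr S (f * (S.neg * x * y)) := fun c4 =>
          hr a1 a4 ez1 fz2 x3 (Ne.symm y2) v1 c1 c4
        exact ⟨_, _, _, c2, c3, c4, x2, x3, x4, y2, y3, y4, v1, v2, u1, ⟨_, comm h a2⟩,
          ⟨_, comm h a3⟩, ⟨_, comm h a4⟩⟩
      · have c3 : ¬ Hr S (f * x) := fun c3 =>
          hr a2 a3 ez2 fz1 x4 (Ne.symm y1) w3 c2 c3
        have c4 : ¬ Hr S (f * (S.neg * x * y)) := fun c4 =>
          hr a2 a4 ez2 fz2 x3 (Ne.symm y1) w2 c2 c4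
        exact ⟨_, _, _, c1, c3, c4, x1, x3, x4, y1, y3, y4, w2, w3, u1, ⟨_, comm h a1⟩,
          ⟨_, comm h a3⟩, ⟨_, comm h a4⟩⟩
      · by_cases c3 : Hr S (f * x)
        · exact ⟨_, _, _, c1, c2, hex _ _ a6 c3, x1, x2, x4, y1, y2, y4, w1, w3, v2,
            ⟨_, comm h a1⟩, ⟨_, comm h a2⟩, ⟨_, comm h a4⟩⟩
        · exact ⟨_, _, _, c1, c2, c3, x1, x2, x3, y1, y2, y3, w1, w2, v1,
            ⟨_, comm h a1⟩, ⟨_, comm h a2⟩, ⟨_, comm h a3⟩⟩
    obtain ⟨p, r, s, hp, hr', hs', n1, n2, n3, n4, n5, n6, n7, n8, n9, ⟨p', hp'⟩, ⟨r', hr''⟩,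
      ⟨s', hs''⟩⟩ := main
    have hc : #({x, y, p, r, s} : Finset S.G) = 5 := by
      rw [Finset.card_insert_of_notMem, card_four n4 n5 n6 n7 n8 n9]
      simp [hxy, n1, n2, n3]
    have key := sum_bound (fw S κ t) (slots S t) {x, y, p, r, s} ∅ hf (by
      intro w hw
      simp only [Finset.mem_insert, Finset.mem_singleton] at hw
      rcases hw with rfl | rfl | rfl | rfl | rfl
      · exact mem_slots hs.adj
      · exact mem_slots (comm h hs.adj)
      · exact mem_slots hp'
      · exact mem_slots hr''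
      · exact mem_slots hs'') (Finset.empty_subset _) (Finset.disjoint_empty_right _) (by
      intro w hw
      simp only [Finset.mem_insert, Finset.mem_singleton] at hw
      rcases hw with rfl | rfl | rfl | rfl | rfl
      · exact fw_four h hl hκ hs.adj hx
      · exact fw_four h hl hκ (comm h hs.adj) hy
      · exact fw_four h hl hκ hp' hp
      · exact fw_four h hl hκ hr'' hr'
      · exact fw_four h hl hκ hs'' hs') (by simp)
    rw [hc, Finset.card_empty] at key
    omega

include h hl in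
/-- the weight of a value without loops is at least `24`, with `κ = 2` in general and `κ = 1` if
`-1 = 1` -/
theorem weight (κ : ℕ) (hκ : κ = 2 ∨ (κ = 1 ∧ S.neg = 1)) (hne : ∃ u v, S.q u v = t) :
    24 ≤ ∑ u, fw S κ t u := by
  have hκ1 : 1 ≤ κ := by omega
  by_cases hA : ∀ u v, S.q u v = t → Hr S u
  · obtain ⟨u, v, huv⟩ := hne
    exact caseA h hl hκ1 huv hA
  push Not at hA
  obtain ⟨x0, y0, hxy0, hx0⟩ := hA
  by_cases hB : ∀ u v, S.q u v = t → ¬ Hr S u → Hr S v
  · exact caseB h hl hκ1 hxy0 hx0 hB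
  push Not at hB
  obtain ⟨x, y, hxy, hx, hy⟩ := hB
  by_cases hC : ∃ d, d ≠ 1 ∧ S.q x d = S.zero ∧ S.q y d = S.zero
  · obtain ⟨d, hd, hxd, hyd⟩ := hC
    have hs : Six S t x y d := ⟨hxy, hd, hxd, hyd⟩
    rcases hκ with rfl | ⟨rfl, hneg⟩
    · exact caseC1 h hl hs
    · exact caseC1' h hl le_rfl hneg hs
  · push Not at hC
    have hx' := hx
    have hy' := hy
    unfold Hr at hx' hy'
    push Not at hx' hy'
    obtain ⟨e, he, he1, he2⟩ := hx'
    obtain ⟨f, hf, hf1, hf2⟩ := hy'
    have hs : Sev S t x y e f := ⟨hxy, he, he1, he2, hf, hf1, hf2, fun d h1 h2 => by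
      by_contra hd
      exact hC d hd h1 h2⟩
    rcases hκ with rfl | ⟨rfl, -⟩
    · exact caseC2 h hl hx hy hs
    · exact caseC2' h hl le_rfl hx hy hs

end Pool.Agent.X321.MQ
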