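import Pool.Agent.Y447.ET.WB

set_option autoImplicit false

/-! Rigid pairs `T ≤ H` of index `[F* : H] ≤ 2`: no exception if there is a good pair. -/

namespace Pool.Agent.X321.MQ

open Pool.Agent.Y920.ETC

variable {F : Type} [Field F] {T H : Subgroup Fˣ}

/-- `H` has index at most two -/
def Idx2 (H : Subgroup Fˣ) : Prop := ∀ x y : Fˣ, x ∉ H → y ∉ H → x * y ∈ H

/-- a good pair: `c = 1 + b`, `b ∈ H` not in `-T`, and `c` not in `T`, `-T`, `b T` -/
structure Good (T H : Subgroup Fˣ) (b c : Fˣ) : Prop where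
  b_mem : b ∈ H
  b_neg : -b ∉ T
  eq : (c : F) = 1 + b
  c1 : c ∉ T
  c2 : -c ∉ T
  c3 : c * b⁻¹ ∉ T

lemma neg_notMem (h : RigidPair T H) {x : Fˣ} (hx : x ∉ H) : -x ∉ H := by
  intro h1
  apply hx
  have h2 := H.mul_mem h.neg h1
  rwa [neg_mul_neg, one_mul] at h2

lemma one_add_ne {b : Fˣ} (hb : -b ∉ T) : (1 : F) + b ≠ 0 := by
  intro h0
  apply hb
  have h1 : -b = 1 := by
    apply Units.ext
    rw [Units.val_neg, Units.val_one]
    linear_combination -h0
  rw [h1]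
  exact T.one_mem

/-- a second alternative of the rigidity -/
lemma alt (h : RigidPair T H) {x : Fˣ} (hx : x ∉ H) (hs : ¬ Sm T H x) :
    ∃ t ∈ T, ((x * t : Fˣ) : F) = 1 + x := by
  rcases h.rigid x hx with h1 | h1
  · exact absurd ⟨hx, h1⟩ hs
  · exact h1

lemma mem_a (h : RigidPair T H) {b c : Fˣ} (hb : b ∈ H) (hb' : -b ∉ T) (hc : (c : F) = 1 + b) :
    c ∈ H := by
  by_contra hcH
  rcases h.rigid (-c) (neg_notMem h hcH) with ⟨t, ht, h1⟩ | ⟨t, ht, h1⟩
  · apply hb'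
    have : t = -b := by
      apply Units.ext
      rw [h1, Units.val_neg, Units.val_neg, hc]
      ring
    rwa [this] at ht
  · apply hcH
    have h2 : c * t = b := by
      apply Units.ext
      push_cast at h1 ⊢
      rw [hc] at h1 ⊢
      linear_combination -h1
    rw [← H.mul_mem_cancel_right (h.le ht), h2]
    exact hb

lemma sm_b (h : RigidPair T H) {b c x : Fˣ} (hb : b ∈ H) (hb' : -b ∉ T) (hc : (c : F) = 1 + b)
    (hx : Sm T H x) : Sm T H (x * c⁻¹) := by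
  by_contra hs
  have hcH := mem_a h hb hb' hc
  have hxc : x * c⁻¹ ∉ H := fun h1 => hx.1 ((H.mul_mem_cancel_right (H.inv_mem hcH)).mp h1)
  obtain ⟨t, ht, h1⟩ := alt h hxc hs
  obtain ⟨hx1, u, hu, hux⟩ := hx
  have hb2 : -(b * u⁻¹) ∉ T := by
    intro h2
    apply hb'
    rw [← neg_mul] at h2
    exact (T.mul_mem_cancel_right (T.inv_mem hu)).mp h2
  have h3 := mem_a (c := Units.mk0 _ (one_add_ne hb2)) h
    (H.mul_mem hb (H.inv_mem (h.le hu))) hb2 rfl
  apply hx1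
  have h4 : x * t = u * Units.mk0 _ (one_add_ne hb2) := by
    apply Units.ext
    rw [Units.val_mul, Units.val_mul, Units.val_mk0, Units.val_mul, Units.val_inv_eq_inv_val]
    rw [Units.val_mul, Units.val_mul, Units.val_inv_eq_inv_val] at h1
    have hc0 : (c : F) ≠ 0 := c.ne_zero
    have hu0 : (u : F) ≠ 0 := u.ne_zero
    field_simp at h1 ⊢
    rw [h1, hc, hux]
    ring
  have h5 := H.mul_mem (h.le hu) h3
  rw [← h4] at h5
  exact (H.mul_mem_cancel_right (h.le ht)).mp h5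

lemma sm_c (h : RigidPair T H) {x y u : Fˣ} (hx : Sm T H x) (hy : Sm T H y)
    (hu : (u : F) = 1 + x) (hyx : y * x⁻¹ ∉ T) : Sm T H (y * u⁻¹) := by
  by_contra hs
  obtain ⟨hx1, u', hu', hux⟩ := hx
  have huu : u' = u := Units.ext (by rw [hux, hu])
  subst huu
  obtain ⟨hy1, v, hv, hvy⟩ := hy
  have hyu : y * u'⁻¹ ∉ H := fun h1 =>
    hy1 ((H.mul_mem_cancel_right (H.inv_mem (h.le hu'))).mp h1)
  obtain ⟨t, ht, h1⟩ := alt h hyu hs
  have hxv : x * v⁻¹ ∉ H := fun h1 =>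
    hx1 ((H.mul_mem_cancel_right (H.inv_mem (h.le hv))).mp h1)
  have hu0 : (u' : F) ≠ 0 := u'.ne_zero
  have hv0 : (v : F) ≠ 0 := v.ne_zero
  rw [Units.val_mul, Units.val_mul, Units.val_inv_eq_inv_val] at h1
  field_simp at h1
  rcases h.rigid _ hxv with ⟨t', ht', h2⟩ | ⟨t', ht', h2⟩
  · apply hy1
    apply h.le
    have h3 : y * t = v * t' := by
      apply Units.ext
      rw [Units.val_mul, Units.val_mul, h2, Units.val_mul, Units.val_inv_eq_inv_val]
      field_simp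
      rw [h1, hux, hvy]
      ring
    have h4 := T.mul_mem hv ht'
    rw [← h3] at h4
    exact (T.mul_mem_cancel_right ht).mp h4
  · apply hyx
    have h3 : y * t = x * t' := by
      apply Units.ext
      rw [Units.val_mul, Units.val_mul]
      rw [Units.val_mul, Units.val_mul, Units.val_inv_eq_inv_val] at h2
      field_simp at h2
      rw [h1, h2, hux, hvy]
      ring
    have h4 : y * x⁻¹ = t' * t⁻¹ := by
      rw [mul_inv_eq_iff_eq_mul, mul_right_comm, eq_mul_inv_iff_mul_eq, h3, mul_comm]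
    rw [h4]
    exact T.mul_mem ht' (T.inv_mem ht)

section good

variable {b c : Fˣ}

lemma sm_X (h : RigidPair T H) (hg : Good T H b c) {g : Fˣ} (hgH : g ∉ H)
    (h1 : Sm T H (g * c⁻¹)) : Sm T H g := by
  by_contra hs
  obtain ⟨t, ht, h2⟩ := alt h hgH hs
  obtain ⟨-, t1, ht1, h3⟩ := h1
  have hcH := mem_a h hg.b_mem hg.b_neg hg.eq
  have hk : g * b * c⁻¹ * t1⁻¹ ∉ H := by
    intro h4
    apply hgH
    rw [H.mul_mem_cancel_right (H.inv_mem (h.le ht1)), H.mul_mem_cancel_right (H.inv_mem hcH),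
      H.mul_mem_cancel_right hg.b_mem] at h4
    exact h4
  have hc0 : (c : F) ≠ 0 := c.ne_zero
  have ht0 : (t1 : F) ≠ 0 := t1.ne_zero
  have e1 : (g : F) * t = t1 * (1 + g * b * (c : F)⁻¹ * (t1 : F)⁻¹) := by
    rw [Units.val_mul] at h2
    rw [Units.val_mul, Units.val_inv_eq_inv_val] at h3
    have e2 : (t1 : F) * (1 + g * b * (c : F)⁻¹ * (t1 : F)⁻¹) = t1 + g * b * (c : F)⁻¹ := by
      field_simp
    rw [e2, h2, h3]
    have e3 : (1 : F) = (1 + b) * (c : F)⁻¹ := by rw [← hg.eq, mul_inv_cancel₀ hc0]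
    linear_combination (g : F) * e3
  rcases h.rigid _ hk with ⟨t', ht', h4⟩ | ⟨t', ht', h4⟩
  · apply hgH
    apply h.le
    have h5 : g * t = t1 * t' := by
      apply Units.ext
      rw [Units.val_mul, Units.val_mul, e1, h4]
      push_cast
      rfl
    have h6 := T.mul_mem ht1 ht'
    rw [← h5] at h6
    exact (T.mul_mem_cancel_right ht).mp h6
  · apply hg.c3
    have h5 : g * t = g * b * c⁻¹ * t' := by
      apply Units.ext
      have e4 : ((g * b * c⁻¹ * t' : Fˣ) : F) =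
          t1 * ((g * b * c⁻¹ * t1⁻¹ * t' : Fˣ) : F) := by
        push_cast
        field_simp
      rw [Units.val_mul, e1, e4, h4]
      push_cast
      rfl
    have h6 : c * b⁻¹ = t' * t⁻¹ := by
      have h7 : t = b * c⁻¹ * t' := by
        rw [mul_assoc g b, mul_assoc g] at h5
        exact mul_left_cancel h5
      rw [h7]
      simp only [mul_inv_rev, inv_inv]
      rw [← mul_assoc, mul_inv_cancel, one_mul]
    rw [h6]
    exact T.mul_mem ht' (T.inv_mem ht)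

lemma sm_d (h : RigidPair T H) (hg : Good T H b c) {x y u : Fˣ} (hx : Sm T H x)
    (hy : Sm T H y) (hu : (u : F) = 1 + x) : Sm T H (y * u⁻¹) := by
  by_cases hyx : y * x⁻¹ ∈ T
  · obtain ⟨hx1, u', hu', hux⟩ := id hx
    have huu : u' = u := Units.ext (by rw [hux, hu])
    rw [huu] at hu'
    apply sm_X h hg
    · exact fun h1 => hy.1 ((H.mul_mem_cancel_right (H.inv_mem (h.le hu'))).mp h1)
    · rw [mul_right_comm]
      apply sm_c h hx (sm_b h hg.b_mem hg.b_neg hg.eq hy) hu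
      intro h1
      apply hg.c1
      rw [mul_right_comm, T.mul_mem_cancel_left hyx, T.inv_mem_iff] at h1
      exact h1
  · exact sm_c h hx hy hu hyx

lemma sm_e0 (h : RigidPair T H) (h2 : Idx2 H) {a x u : Fˣ} (ha : Sm T H a) (hx : Sm T H x)
    (hu : (u : F) = 1 + x) (hax : -(a * x) ∉ T) : Sm T H (a * u) := by
  by_contra hs
  obtain ⟨hx1, u', hu', hux⟩ := hx
  have huu : u' = u := Units.ext (by rw [hux, hu])
  subst huu
  have hau : a * u' ∉ H := fun h1 => ha.1 ((H.mul_mem_cancel_right (h.le hu')).mp h1)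
  obtain ⟨t, ht, h1⟩ := alt h hau hs
  obtain ⟨ha1, v, hv, hva⟩ := ha
  have hk : -(a * x * v⁻¹) ∉ T := by
    intro h3
    apply hax
    rw [← neg_mul] at h3
    exact (T.mul_mem_cancel_right (T.inv_mem hv)).mp h3
  have h3 := mem_a (c := Units.mk0 _ (one_add_ne hk)) h
    (H.mul_mem (h2 a x ha1 hx1) (H.inv_mem (h.le hv))) hk rfl
  apply hau
  have h4 : a * u' * t = v * Units.mk0 _ (one_add_ne hk) := by
    apply Units.ext
    rw [h1, Units.val_mul, Units.val_mul, Units.val_mk0, Units.val_mul, Units.val_mul,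
      Units.val_inv_eq_inv_val]
    have hv0 : (v : F) ≠ 0 := v.ne_zero
    field_simp
    rw [hva, hux]
    ring
  have h5 := H.mul_mem (h.le hv) h3
  rw [← h4] at h5
  exact (H.mul_mem_cancel_right (h.le ht)).mp h5

lemma sm_e (h : RigidPair T H) (h2 : Idx2 H) (hg : Good T H b c) {a x u : Fˣ} (ha : Sm T H a)
    (hx : Sm T H x) (hu : (u : F) = 1 + x) : Sm T H (a * u) := by
  by_cases hax : -(a * x) ∈ T
  · obtain ⟨hx1, u', hu', hux⟩ := id hx
    have huu : u' = u := Units.ext (by rw [hux, hu])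
    rw [huu] at hu'
    apply sm_X h hg
    · exact fun h1 => ha.1 ((H.mul_mem_cancel_right (h.le hu')).mp h1)
    · rw [mul_right_comm]
      apply sm_e0 h h2 (sm_b h hg.b_mem hg.b_neg hg.eq ha) hx hu
      intro h1
      apply hg.c1
      have e : -(a * c⁻¹ * x) = -(a * x) * c⁻¹ := by
        rw [mul_right_comm, neg_mul]
      rw [e, T.mul_mem_cancel_left hax, T.inv_mem_iff] at h1
      exact h1
  · exact sm_e0 h h2 ha hx hu hax

lemma sm_g (h : RigidPair T H) (h2 : Idx2 H) (hg : Good T H b c) {z : Fˣ} (hz : Sm T H z) :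
    Sm T H (-z) := by
  by_contra hs
  have hnz := neg_notMem h hz.1
  have hw := Pool.Agent.Y447.ET.sm_of_not h hnz hs
  obtain ⟨-, u, hu, hux⟩ := id hz
  obtain ⟨-, t, ht, h1⟩ := sm_e h h2 hg hw hz hux
  apply hw.1
  apply h.le
  have h3 : t = (-z)⁻¹ := by
    apply Units.ext
    rw [h1, Units.val_mul, hux, Units.val_inv_eq_inv_val, Units.val_neg]
    have hz0 : (z : F) ≠ 0 := z.ne_zero
    field_simp
    ring
  rwa [h3] at ht

lemma one_add_mem (h : RigidPair T H) (h2 : Idx2 H) (hg : Good T H b c) {z w : Fˣ}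
    (hz : Sm T H z) (hw : Sm T H w) (hzw : -(z * w) ∉ T) : ∃ t ∈ T, (t : F) = 1 + z * w := by
  obtain ⟨-, u, hu, hux⟩ := id hz
  obtain ⟨-, t, ht, h1⟩ := sm_e h h2 hg hw hz hux
  obtain ⟨k, hk⟩ : ∃ k : Fˣ, (k : F) = 1 + (z * w : Fˣ) := ⟨Units.mk0 _ (one_add_ne hzw), rfl⟩
  have h3 : Sm T H (w * k⁻¹) := sm_b h (h2 z w hz.1 hw.1) hzw hk hw
  obtain ⟨-, t', ht', h4⟩ := h3
  have h5 : k = t * t'⁻¹ := by
    rw [eq_mul_inv_iff_mul_eq]
    apply Units.ext
    rw [Units.val_mul, h4, h1, Units.val_mul, Units.val_mul, hux, Units.val_inv_eq_inv_val,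
      mul_add, mul_one]
    have h6 : (k : F) ≠ 0 := Units.ne_zero _
    have h7 : (k : F) * (w * (k : F)⁻¹) = w := by
      field_simp
    rw [h7, hk, Units.val_mul]
    ring
  refine ⟨t * t'⁻¹, T.mul_mem ht (T.inv_mem ht'), ?_⟩
  rw [← h5, hk, Units.val_mul]

lemma P0 (h : RigidPair T H) (h2 : Idx2 H) (hg : Good T H b c) {x y z : Fˣ} (hx : Sm T H x)
    (hy : Sm T H y) (hz : Sm T H z) (hs : ¬ Sm T H (x * y * z)) :
    x * y ∈ T ∨ -(x * y) ∈ T := by
  have hxy := h2 x y hx.1 hy.1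
  have hn : x * y * z ∉ H := fun h1 => hz.1 ((H.mul_mem_cancel_left hxy).mp h1)
  have hr := Pool.Agent.Y447.ET.sm_of_not h hn hs
  by_cases hc : -(x * y) ∈ T
  · exact Or.inr hc
  · left
    obtain ⟨t, ht, h1⟩ := one_add_mem h h2 hg hx hy hc
    have e : z * (x * y * z)⁻¹ = (x * y)⁻¹ := by
      rw [mul_inv_rev (x * y) z, mul_inv_cancel_left]
    have hc' : -(z * (x * y * z)⁻¹) ∉ T := by
      intro h3
      apply hc
      rw [e] at h3
      have h4 := T.inv_mem h3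
      rwa [inv_neg, inv_inv] at h4
    obtain ⟨t', ht', h3⟩ := one_add_mem h h2 hg hz hr hc'
    have h4 : x * y = t * t'⁻¹ := by
      rw [eq_mul_inv_iff_mul_eq]
      apply Units.ext
      rw [Units.val_mul, h3, h1, ← Units.val_mul z, e, Units.val_inv_eq_inv_val, mul_add,
        mul_inv_cancel₀ (Units.ne_zero _), Units.val_mul]
      ring
    rw [h4]
    exact T.mul_mem ht (T.inv_mem ht')

/-- no exception -/
theorem pcd (h : RigidPair T H) (h2 : Idx2 H) (hg : Good T H b c) : PCD T H := by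
  refine ⟨?_, ?_, ?_⟩
  · intro x y z hx hy _ hz
    by_contra hs
    have hxy := h2 x y hx.1 hy.1
    have hn : x * y * z ∉ H := fun h1 => hz.1 ((H.mul_mem_cancel_left hxy).mp h1)
    have hs' : ¬ Sm T H (x * c⁻¹ * y * z) := by
      intro h1
      apply hs
      apply sm_X h hg hn
      rw [mul_right_comm (x * y), mul_right_comm x]
      exact h1
    have h3 := P0 h h2 hg hx hy hz hs
    have h4 := P0 h h2 hg (sm_b h hg.b_mem hg.b_neg hg.eq hx) hy hz hs'
    rw [mul_right_comm] at h4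
    have e : -(x * y * c⁻¹) = -(x * y) * c⁻¹ := (neg_mul _ _).symm
    rcases h3 with h3 | h3 <;> rcases h4 with h4 | h4
    · rw [T.mul_mem_cancel_left h3, T.inv_mem_iff] at h4
      exact hg.c1 h4
    · rw [← mul_neg, T.mul_mem_cancel_left h3] at h4
      have h5 := T.inv_mem h4
      rw [inv_neg, inv_inv] at h5
      exact hg.c2 h5
    · have h5 : -(x * y) * -(c⁻¹) ∈ T := by rwa [neg_mul_neg]
      rw [T.mul_mem_cancel_left h3] at h5
      have h6 := T.inv_mem h5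
      rw [inv_neg, inv_inv] at h6
      exact hg.c2 h6
    · rw [e, T.mul_mem_cancel_left h3, T.inv_mem_iff] at h4
      exact hg.c1 h4
  · intro a x u ha hx hu
    exact sm_e h h2 hg ha hx hu
  · intro x a b' hx ha hb' he
    obtain ⟨-, u, hu, hux⟩ := id hx
    have h3 := sm_d h hg hx ha hux
    have h4 : u = a * b' := Units.ext (by rw [hux, he, Units.val_mul])
    rw [h4, mul_inv_rev, mul_comm b'⁻¹, mul_inv_cancel_left] at h3
    exact Pool.Agent.Y447.ET.not_both h hb' h3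

end good

/-- existence of good pairs for the squares `T` -/
theorem exists_good (h : RigidPair T H) (hT : ∀ x : Fˣ, x ∈ T ↔ ∃ y : Fˣ, x = y ^ 2)
    {β e : Fˣ} (hβ : β ∈ H) (hβ1 : β ∉ T) (hβ2 : -β ∉ T) (he : e ∉ T) (heβ : e * β⁻¹ ∉ T)
    (hxy : ∃ x y : F, (e : F) = x ^ 2 + β * y ^ 2) : ∃ b c : Fˣ, Good T H b c := by
  obtain ⟨x, y, hxy⟩ := hxy
  have hx0 : x ≠ 0 := by
    rintro rfl
    apply heβ
    rw [hT]
    have hy0 : y ≠ 0 := by
      rintro rfl
      apply e.ne_zero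
      rw [hxy]
      ring
    refine ⟨Units.mk0 y hy0, ?_⟩
    rw [mul_inv_eq_iff_eq_mul]
    apply Units.ext
    rw [hxy, Units.val_mul, Units.val_pow_eq_pow_val, Units.val_mk0]
    ring
  have hy0 : y ≠ 0 := by
    rintro rfl
    apply he
    rw [hT]
    refine ⟨Units.mk0 x hx0, ?_⟩
    apply Units.ext
    rw [hxy, Units.val_pow_eq_pow_val, Units.val_mk0]
    ring
  set s : Fˣ := Units.mk0 x hx0 with hs
  set r : Fˣ := Units.mk0 y hy0 with hr
  have hsT : s ^ 2 ∈ T := (hT _).2 ⟨s, rfl⟩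
  have hrT : (r * s⁻¹) ^ 2 ∈ T := (hT _).2 ⟨_, rfl⟩
  have hb1 : β * (r * s⁻¹) ^ 2 ∉ T := fun h1 => hβ1 ((T.mul_mem_cancel_right hrT).mp h1)
  have hb2 : -(β * (r * s⁻¹) ^ 2) ∉ T := by
    rw [← neg_mul]
    exact fun h1 => hβ2 ((T.mul_mem_cancel_right hrT).mp h1)
  have hc1 : e * (s ^ 2)⁻¹ ∉ T := fun h1 => he ((T.mul_mem_cancel_right (T.inv_mem hsT)).mp h1)
  have hc3 : e * (s ^ 2)⁻¹ * (β * (r * s⁻¹) ^ 2)⁻¹ ∉ T := by
    intro h1
    apply heβ
    have e1 : e * (s ^ 2)⁻¹ * (β * (r * s⁻¹) ^ 2)⁻¹ =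
        e * β⁻¹ * ((s ^ 2)⁻¹ * ((r * s⁻¹) ^ 2)⁻¹) := by
      rw [mul_inv_rev, mul_comm ((r * s⁻¹) ^ 2)⁻¹ β⁻¹, mul_mul_mul_comm]
    rw [e1] at h1
    exact (T.mul_mem_cancel_right (T.mul_mem (T.inv_mem hsT) (T.inv_mem hrT))).mp h1
  have heq : ((e * (s ^ 2)⁻¹ : Fˣ) : F) = 1 + (β * (r * s⁻¹) ^ 2 : Fˣ) := by
    push_cast
    rw [hxy, hs, hr, Units.val_mk0, Units.val_mk0]
    field_simp
  have hbH : β * (r * s⁻¹) ^ 2 ∈ H := H.mul_mem hβ (h.le hrT)
  by_cases hc2 : -(e * (s ^ 2)⁻¹) ∈ T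
  · refine ⟨-(e * (s ^ 2)⁻¹), -(β * (r * s⁻¹) ^ 2), h.le hc2, ?_, ?_, hb2, ?_, ?_⟩
    · rwa [neg_neg]
    · rw [Units.val_neg, Units.val_neg, heq]
      ring
    · rwa [neg_neg]
    · exact fun h1 => hb2 ((T.mul_mem_cancel_right (T.inv_mem hc2)).mp h1)
  · exact ⟨_, _, hbH, hb2, heq, hc1, hc2, hc3⟩

end Pool.Agent.X321.MQ
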